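import Pool.Agent.K1H34.Had2.Stmts

/-! Piece PS2 of the project PS: two steps. -/

set_option autoImplicit false

namespace Pool.Agent.K1H36.Had2

open Pool.Agent.K1H34.Had (PHad NN)
open Pool.Agent.K1H34.Had2
open Pool.Agent.H108R3.Had (PUk)
open Pool.Agent.TH394 (HadOrder)

lemma four_dvd_NN (k : ℕ) : 4 ∣ NN k := by
  unfold NN
  have h1 : 1 ≤ 2 ^ (k + 3) := Nat.one_le_two_pow
  obtain ⟨e, he⟩ : ∃ e, 5 * 2 ^ (k + 3) - 1 = e + 2 := ⟨5 * 2 ^ (k + 3) - 3, by omega⟩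
  rw [he, pow_add]
  exact dvd_mul_left _ _

lemma NN_pos (k : ℕ) : 0 < NN k := by
  unfold NN
  positivity

lemma coprime_NN (k v : ℕ) (hv : v % 4 = 1) : (NN k).Coprime v := by
  unfold NN
  apply Nat.Coprime.pow_left
  rw [Nat.prime_two.coprime_iff_not_dvd]
  omega

lemma coprime_2NN (k v : ℕ) (hv : v % 4 = 1) : (2 * NN k).Coprime v := by
  apply Nat.Coprime.mul_left
  · rw [Nat.prime_two.coprime_iff_not_dvd]
    omega
  · exact coprime_NN k v hv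

lemma five_le (v : ℕ) (hv : IsPrimePow v) (h : v % 4 = 1) : 5 ≤ v := by
  have h1 := hv.one_lt
  omega

/-- the choice of `x = h + D₂` -/
lemma exists_x (N v₁ v₂ h n B : ℕ) (hN : 0 < N) (hc : (2 * N).Coprime v₁) (h12 : v₁.Coprime v₂)
    (hv1 : 1 < v₁) (hhn : h ≤ n) :
    ∃ x, B ≤ x ∧ x < B + 2 * N * v₁ ∧ x ≡ N [MOD 2 * N] ∧ v₂ * x + h ≡ n [MOD v₁] := by
  obtain ⟨b, -, hb⟩ := Nat.exists_mul_mod_eq_one_of_coprime h12.symm hv1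
  obtain ⟨x₀, hx1, hx2⟩ := Nat.chineseRemainder hc N (b * (n - h))
  have hW : 0 < 2 * N * v₁ := by positivity
  have hWB : B ≤ 2 * N * v₁ * B := Nat.le_mul_of_pos_left _ hW
  refine ⟨B + (x₀ + 2 * N * v₁ * B - B) % (2 * N * v₁), Nat.le_add_right _ _,
    Nat.add_lt_add_left (Nat.mod_lt _ hW) _, ?_, ?_⟩
  all_goals
    have hmod : B + (x₀ + 2 * N * v₁ * B - B) % (2 * N * v₁) ≡ x₀ [MOD 2 * N * v₁] := by
      have e1 : B + (x₀ + 2 * N * v₁ * B - B) % (2 * N * v₁) ≡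
          B + (x₀ + 2 * N * v₁ * B - B) [MOD 2 * N * v₁] :=
        Nat.ModEq.add_left _ (Nat.mod_modEq _ _)
      have e2 : B + (x₀ + 2 * N * v₁ * B - B) = x₀ + 2 * N * v₁ * B := by omega
      rw [e2] at e1
      refine e1.trans ?_
      have e3 : x₀ + 2 * N * v₁ * B ≡ x₀ + 0 [MOD 2 * N * v₁] :=
        Nat.ModEq.add_left _ ((Nat.modEq_zero_iff_dvd).2 (dvd_mul_right _ _))
      rwa [add_zero] at e3
  · exact (hmod.of_mul_right v₁).trans hx1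
  · have h1 : B + (x₀ + 2 * N * v₁ * B - B) % (2 * N * v₁) ≡ b * (n - h) [MOD v₁] :=
      (hmod.of_mul_left (2 * N)).trans hx2
    have h2 : v₂ * b ≡ 1 [MOD v₁] := by
      show v₂ * b % v₁ = 1 % v₁
      rw [hb, Nat.mod_eq_of_lt hv1]
    have h3 : v₂ * (b * (n - h)) ≡ n - h [MOD v₁] := by
      rw [← mul_assoc]
      simpa using h2.mul_right (n - h)
    have h4 := ((h1.mul_left v₂).trans h3).add_right h
    rwa [Nat.sub_add_cancel hhn] at h4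

lemma size (N v₁ v₂ h n x : ℕ) (h5 : 5 ≤ v₁) (h12 : v₁ ≤ v₂)
    (hx : x < h + N * ((v₂ + 1) * (v₂ + 2)) + 2 * N * v₁)
    (hn : (v₁ + 1) * (v₂ + 1) * h + 30 * N * v₁ * v₂ ^ 3 ≤ n) :
    (v₁ + 1) * (v₂ * x + h) + v₁ * (N * ((v₁ + 1) * (v₁ + 2))) ≤ n := by
  have hT : (v₂ + 1) * (v₂ + 2) + 2 * v₁ ≤ 3 * v₂ ^ 2 := by nlinarith
  have hx' : x ≤ h + N * (3 * v₂ ^ 2) := by
    have : N * ((v₂ + 1) * (v₂ + 2) + 2 * v₁) ≤ N * (3 * v₂ ^ 2) := Nat.mul_le_mul_left _ hT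
    have e : N * ((v₂ + 1) * (v₂ + 2) + 2 * v₁) = N * ((v₂ + 1) * (v₂ + 2)) + 2 * N * v₁ := by ring
    omega
  have h1 : (v₁ + 1) * (v₂ * x + h) ≤ (v₁ + 1) * (v₂ * (h + N * (3 * v₂ ^ 2)) + h) :=
    Nat.mul_le_mul_left _ (Nat.add_le_add_right (Nat.mul_le_mul_left _ hx') _)
  have h2 : (v₁ + 1) * (v₂ * (h + N * (3 * v₂ ^ 2)) + h) =
      (v₁ + 1) * (v₂ + 1) * h + (v₁ + 1) * (3 * N * v₂ ^ 3) := by ring
  have h3 : (v₁ + 1) * (3 * N * v₂ ^ 3) ≤ (2 * v₁) * (3 * N * v₂ ^ 3) :=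
    Nat.mul_le_mul_right _ (by omega)
  have h4 : (v₁ + 1) * (v₁ + 2) ≤ (2 * v₂) * (2 * v₂) :=
    Nat.mul_le_mul (by omega) (by omega)
  have h5' : v₁ * (N * ((v₁ + 1) * (v₁ + 2))) ≤ v₁ * (N * ((2 * v₂) * (2 * v₂))) :=
    Nat.mul_le_mul_left _ (Nat.mul_le_mul_left _ h4)
  have h6 : v₁ * (N * ((2 * v₂) * (2 * v₂))) ≤ 4 * N * v₁ * v₂ ^ 3 := by
    have e : v₁ * (N * ((2 * v₂) * (2 * v₂))) = 4 * N * v₁ * v₂ ^ 2 := by ring
    rw [e]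
    exact Nat.mul_le_mul_left _ (Nat.pow_le_pow_right (by omega) (by norm_num))
  have h7 : (2 * v₁) * (3 * N * v₂ ^ 3) = 6 * (N * v₁ * v₂ ^ 3) := by ring
  have h8 : 4 * N * v₁ * v₂ ^ 3 = 4 * (N * v₁ * v₂ ^ 3) := by ring
  have h9 : 30 * N * v₁ * v₂ ^ 3 = 30 * (N * v₁ * v₂ ^ 3) := by ring
  omega

theorem t_TWO : S_STEP → S_TWO := by
  intro hS k v₁ v₂ h n hp1 hm1 hp2 hm2 hco h12 hPU hHad h4 hmod hn
  have h5 := five_le v₁ hp1 hm1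
  have h5' := five_le v₂ hp2 hm2
  have hN := NN_pos k
  have hN4 := four_dvd_NN k
  have hcN := coprime_NN k v₁ hm1
  have hc2N := coprime_2NN k v₁ hm1
  generalize hNN : NN k = N at *
  have hhn : h ≤ n := by
    have : h ≤ (v₁ + 1) * (v₂ + 1) * h := Nat.le_mul_of_pos_left _ (by positivity)
    omega
  obtain ⟨x, hx1, hx2, hx3, hx4⟩ := exists_x N v₁ v₂ h n (h + N * ((v₂ + 1) * (v₂ + 2))) hN hc2N
    hco (by omega) hhn
  have hsize := size N v₁ v₂ h n x h5 h12 hx2 hn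
  -- `x = N (2 S + 1)`
  have hxN : N ≤ x := by
    have : N ≤ N * ((v₂ + 1) * (v₂ + 2)) := Nat.le_mul_of_pos_right _ (by positivity)
    omega
  obtain ⟨S, hS1⟩ : ∃ S, x = N * (2 * S + 1) := by
    have h1 : 2 * N ∣ x - N := (Nat.modEq_iff_dvd' hxN).1 hx3.symm
    obtain ⟨S, hS⟩ := h1
    refine ⟨S, ?_⟩
    have e : N * (2 * S + 1) = 2 * N * S + N := by ring
    omega
  -- sizes
  obtain ⟨m₁, hm⟩ : ∃ m₁, m₁ = v₂ * x + h := ⟨_, rfl⟩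
  rw [← hm] at hsize hx4
  have hxm : x ≤ m₁ := by
    have : x ≤ v₂ * x := Nat.le_mul_of_pos_left _ (by omega)
    omega
  have hm1n : m₁ ≤ n := by
    have : m₁ ≤ (v₁ + 1) * m₁ := Nat.le_mul_of_pos_left _ (by omega)
    omega
  -- first step
  obtain ⟨D₂, hD2⟩ : ∃ D₂, x = h + D₂ := ⟨x - h, by omega⟩
  have hP1 : PHad (v₂ * h) m₁ := by
    have := hS k v₂ h D₂ h hp2 hm2 (fun s hs => hPU s (by omega))
      ⟨S, by rw [← hD2, hNN]; exact hS1⟩ h4 (by rw [hNN]; omega) (by omega)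
      (Pool.Agent.K1H34.Had.phad_had hHad)
    rw [← hD2, ← hm] at this
    exact this
  -- `n = m₁ + v₁ M₁`
  obtain ⟨M₁, hM1⟩ : ∃ M₁, n = m₁ + v₁ * M₁ := by
    obtain ⟨M₁, hM⟩ := (Nat.modEq_iff_dvd' hm1n).1 hx4
    exact ⟨M₁, by omega⟩
  obtain ⟨u, hu⟩ : ∃ u, n = h + 2 * N * u := by
    obtain ⟨u, hu⟩ := (Nat.modEq_iff_dvd' hhn).1 hmod
    exact ⟨u, by omega⟩
  have hkey : v₁ * M₁ + N * (v₂ * (2 * S + 1)) = N * (2 * u) := by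
    have e1 : v₂ * x = N * (v₂ * (2 * S + 1)) := by rw [hS1]; ring
    have e2 : 2 * N * u = N * (2 * u) := by ring
    omega
  have hdvd : N ∣ M₁ := by
    have h1 : N ∣ v₁ * M₁ := by
      have h2 : N ∣ v₁ * M₁ + N * (v₂ * (2 * S + 1)) := by
        rw [hkey]; exact dvd_mul_right _ _
      exact (Nat.dvd_add_left (dvd_mul_right _ _)).1 h2
    exact hcN.dvd_of_dvd_mul_left h1
  obtain ⟨t, ht⟩ := hdvd
  have hodd : t % 2 = 1 := by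
    have h1 : v₁ * t + v₂ * (2 * S + 1) = 2 * u := by
      have h2 : N * (v₁ * t + v₂ * (2 * S + 1)) = N * (2 * u) := by
        rw [← hkey, ht]
        ring
      exact Nat.eq_of_mul_eq_mul_left hN h2
    have h3 : (v₁ * t + v₂ * (2 * S + 1)) % 2 = 0 := by rw [h1]; omega
    have h4 : v₁ % 2 = 1 := by omega
    have h5 : v₂ % 2 = 1 := by omega
    have h6 : (2 * S + 1) % 2 = 1 := by omega
    rw [Nat.add_mod, Nat.mul_mod, Nat.mul_mod v₂, h4, h5, h6] at h3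
    omega
  -- second step
  have hD1 : m₁ + N * ((v₁ + 1) * (v₁ + 2)) ≤ M₁ := by
    have h1 : v₁ * (m₁ + N * ((v₁ + 1) * (v₁ + 2))) ≤ v₁ * M₁ := by
      have e1 : v₁ * (m₁ + N * ((v₁ + 1) * (v₁ + 2))) + m₁ =
          (v₁ + 1) * m₁ + v₁ * (N * ((v₁ + 1) * (v₁ + 2))) := by ring
      omega
    exact Nat.le_of_mul_le_mul_left h1 (by omega)
  obtain ⟨D₁, hD1'⟩ : ∃ D₁, M₁ = m₁ + D₁ := ⟨M₁ - m₁, by omega⟩
  have hM1n : M₁ ≤ n := by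
    have : M₁ ≤ v₁ * M₁ := Nat.le_mul_of_pos_left _ (by omega)
    omega
  have h4m : 4 ∣ m₁ := by
    rw [hm]
    refine dvd_add ?_ h4
    rw [hS1]
    exact dvd_mul_of_dvd_right (dvd_mul_of_dvd_left hN4 _) _
  have hr : v₂ * h ≤ m₁ + D₁ := by
    have : v₂ * h ≤ v₂ * x := Nat.mul_le_mul_left _ (by omega)
    omega
  have hfin := hS k v₁ m₁ D₁ (v₂ * h) hp1 hm1 (fun s hs => hPU s (by omega))
    ⟨(t - 1) / 2, by
      rw [← hD1', hNN, ht]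
      congr 1
      omega⟩ h4m (by rw [hNN]; omega) hr hP1
  rw [← hD1'] at hfin
  have e1 : v₁ * (v₂ * h) = v₁ * v₂ * h := by ring
  have e2 : v₁ * M₁ + m₁ = n := by omega
  rw [e1, e2] at hfin
  exact hfin

end Pool.Agent.K1H36.Had2
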